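import Pool.Agent.Helper73.SM.Goals

/-!
# SM-SQS: the tail of the series of `1 / (q (log q)^(1+ε))`
-/

set_option autoImplicit false

namespace Pool.Agent.Helper49.SM

open Finset

theorem term_le {ε : ℝ} (hε : 0 < ε) (m : ℕ) (hm : 2 ≤ m) :
    1 / (((m + 1 : ℕ) : ℝ) * Real.log ((m + 1 : ℕ) : ℝ) ^ (1 + ε)) ≤
      1 / ε * (1 / Real.log (m : ℝ) ^ ε - 1 / Real.log ((m + 1 : ℕ) : ℝ) ^ ε) := by
  have hm' : (2 : ℝ) ≤ m := by exact_mod_cast hm
  set a := Real.log (m : ℝ) with ha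
  set b := Real.log ((m + 1 : ℕ) : ℝ) with hb
  have hq : (((m + 1 : ℕ) : ℝ)) = m + 1 := by push_cast; ring
  have ha0 : 0 < a := Real.log_pos (by linarith)
  have hb0 : 0 < b := Real.log_pos (by rw [hq]; linarith)
  have hba : 1 / ((m : ℝ) + 1) ≤ b - a := by
    have h1 : b - a = Real.log (((m : ℝ) + 1) / m) := by
      rw [hb, ha, hq, Real.log_div (by positivity) (by positivity)]
    rw [h1]
    have h2 := Real.one_sub_inv_le_log_of_pos (show (0 : ℝ) < ((m : ℝ) + 1) / m by positivity)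
    refine le_trans (le_of_eq ?_) h2
    rw [inv_div]
    field_simp
    ring
  have hr : 1 + ε * ((b - a) / b) ≤ (b / a) ^ ε := by
    rw [Real.rpow_def_of_pos (by positivity)]
    have h1 := Real.add_one_le_exp (Real.log (b / a) * ε)
    have h2 := Real.one_sub_inv_le_log_of_pos (show (0 : ℝ) < b / a by positivity)
    have h3 : 1 - (b / a)⁻¹ = (b - a) / b := by
      rw [inv_div]
      field_simp
    rw [h3] at h2
    nlinarith
  have hbe : 0 < b ^ ε := Real.rpow_pos_of_pos hb0 ε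
  have hae : 0 < a ^ ε := Real.rpow_pos_of_pos ha0 ε
  have h4 : 1 / a ^ ε = (b / a) ^ ε / b ^ ε := by
    rw [Real.div_rpow hb0.le ha0.le]
    field_simp
  have h5 : b ^ (1 + ε) = b * b ^ ε := by
    rw [Real.rpow_add hb0, Real.rpow_one]
  rw [h4, h5, hq]
  have h6 : (b / a) ^ ε / b ^ ε - 1 / b ^ ε = ((b / a) ^ ε - 1) / b ^ ε := by ring
  rw [h6]
  have h7 : ε * (1 / ((m : ℝ) + 1) / b) ≤ (b / a) ^ ε - 1 := by
    have h8 : ε * (1 / ((m : ℝ) + 1) / b) ≤ ε * ((b - a) / b) := by gcongr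
    linarith
  calc 1 / (((m : ℝ) + 1) * (b * b ^ ε)) = 1 / ε * ((ε * (1 / ((m : ℝ) + 1) / b)) / b ^ ε) := by
        field_simp
    _ ≤ 1 / ε * (((b / a) ^ ε - 1) / b ^ ε) := by gcongr

theorem goalSQS : Pool.Agent.Helper73.SM.StmtSQS := by
  intro ε hε
  refine ⟨1 / (2 * Real.log 2) + 1 / ε, by positivity, fun Q hQ N => ?_⟩
  have hlQ : 0 < Real.log Q := Real.log_pos (by linarith)
  have hlQe : 0 < Real.log Q ^ ε := Real.rpow_pos_of_pos hlQ ε
  set q0 := ⌈Q⌉₊ with hq0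
  have hQq : Q ≤ q0 := Nat.le_ceil Q
  have h2q : 2 ≤ q0 := by exact_mod_cast hQ.trans hQq
  have hlog : Real.log Q ≤ Real.log (q0 : ℝ) := Real.log_le_log (by linarith) hQq
  have hl2 : Real.log 2 ≤ Real.log (q0 : ℝ) := Real.log_le_log (by norm_num) (by exact_mod_cast h2q)
  have hlog2 : 0 < Real.log 2 := Real.log_pos (by norm_num)
  rw [sum_filter]
  -- the sum from `q0` on
  have key : ∀ m, q0 ≤ m →
      ∑ q ∈ range (m + 1), (if Q ≤ (q : ℝ) then 1 / ((q : ℝ) * Real.log q ^ (1 + ε)) else 0) ≤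
        1 / ((q0 : ℝ) * Real.log q0 ^ (1 + ε)) +
          1 / ε * (1 / Real.log (q0 : ℝ) ^ ε - 1 / Real.log (m : ℝ) ^ ε) := by
    intro m hm
    induction m, hm using Nat.le_induction with
    | base =>
      rw [sum_range_succ, if_pos hQq, sub_self, mul_zero, add_zero, sum_eq_zero, zero_add]
      intro q hq
      rw [if_neg]
      intro h
      have h1 : q0 ≤ q := Nat.ceil_le.2 h
      exact absurd (mem_range.1 hq) (by omega)
    | succ m hm ih =>
      rw [sum_range_succ, if_pos (hQq.trans (by exact_mod_cast (show q0 ≤ m + 1 by omega)))]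
      have h1 := term_le hε m (by omega)
      linarith
  have hfirst : 1 / ((q0 : ℝ) * Real.log q0 ^ (1 + ε)) ≤ 1 / (2 * Real.log 2) * (1 / Real.log Q ^ ε) := by
    rw [Real.rpow_add (by linarith), Real.rpow_one, one_div_mul_one_div, ← mul_assoc]
    refine one_div_le_one_div_of_le (by positivity) ?_
    have h1 : (2 : ℝ) ≤ q0 := by exact_mod_cast h2q
    have h2 : Real.log Q ^ ε ≤ Real.log (q0 : ℝ) ^ ε := Real.rpow_le_rpow hlQ.le hlog hε.le
    gcongr
  have hF : 1 / Real.log (q0 : ℝ) ^ ε ≤ 1 / Real.log Q ^ ε :=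
    one_div_le_one_div_of_le hlQe (Real.rpow_le_rpow hlQ.le hlog hε.le)
  have hfin : (1 / (2 * Real.log 2) + 1 / ε) / Real.log Q ^ ε =
      1 / (2 * Real.log 2) * (1 / Real.log Q ^ ε) + 1 / ε * (1 / Real.log Q ^ ε) := by
    ring
  rw [hfin]
  rcases Nat.lt_or_ge q0 N with h | h
  · obtain ⟨m, rfl⟩ : ∃ m, N = m + 1 := ⟨N - 1, by omega⟩
    refine (key m (by omega)).trans (add_le_add hfirst ?_)
    refine mul_le_mul_of_nonneg_left ?_ (by positivity)
    have h3 : 0 ≤ 1 / Real.log (m : ℝ) ^ ε := by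
      have : 0 ≤ Real.log (m : ℝ) := Real.log_natCast_nonneg m
      positivity
    linarith
  · rw [sum_eq_zero]
    · positivity
    · intro q hq
      rw [if_neg]
      intro h1
      have h2 : q0 ≤ q := Nat.ceil_le.2 h1
      exact absurd (mem_range.1 hq) (by omega)

end Pool.Agent.Helper49.SM
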